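import Pool.Agent.L0h11.FP.Stm

/-!
# Project FP: module IND (helper24)
-/

set_option autoImplicit false
set_option linter.all false

namespace Pool.Agent.L0h24.FP

open Polynomial Finset Pool.Agent.L0h11.FP

variable {k : Type} [Field k]

theorem mono_mem (c : k) (a b D : ℕ) (h : a + b < D) : C (C c * X ^ a) * X ^ b ∈ V k D := by
  intro j
  rw [coeff_C_mul_X_pow]
  split_ifs with hj
  · rw [mem_degreeLT]
    refine (degree_C_mul_X_pow_le a c).trans_lt ?_
    have : a < D - j := by omega
    exact_mod_cast this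
  · exact Submodule.zero_mem _

theorem mul_mem_V (e D : ℕ) (he : 1 ≤ e) (q : k[X][X]) (hq : q ∈ V k (D - e)) :
    (X - C (X ^ e)) * q ∈ V k D := by
  intro j
  rw [sub_mul, coeff_sub, coeff_C_mul]
  apply Submodule.sub_mem
  · rcases j with _ | j
    · rw [coeff_X_mul_zero]
      exact Submodule.zero_mem _
    · rw [coeff_X_mul]
      have h := hq j
      rw [mem_degreeLT] at h ⊢
      refine h.trans_le ?_
      have : D - e - j ≤ D - (j + 1) := by omega
      exact_mod_cast this
  · have h := hq j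
    rw [mem_degreeLT] at h ⊢
    by_cases h0 : D - e - j = 0
    · rw [h0] at h
      have h1 : q.coeff j = 0 := by
        rw [← degree_eq_bot]
        rcases hd : (q.coeff j).degree with _ | n
        · rfl
        · exfalso
          rw [hd] at h
          have h2 : ((n : ℕ) : WithBot ℕ) < ((0 : ℕ) : WithBot ℕ) := h
          rw [Nat.cast_lt] at h2
          omega
      rw [h1, mul_zero, degree_zero]
      exact WithBot.bot_lt_coe _
    · by_cases h1 : q.coeff j = 0
      · rw [h1, mul_zero, degree_zero]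
        exact WithBot.bot_lt_coe _
      · rw [degree_eq_natDegree h1, Nat.cast_lt] at h
        have h2 : (X ^ e * q.coeff j).natDegree < D - j := by
          refine natDegree_mul_le.trans_lt ?_
          rw [natDegree_X_pow]
          omega
        exact (degree_le_natDegree).trans_lt (by exact_mod_cast h2)

theorem card_Ex (e D : ℕ) (he : 1 ≤ e) : aa e D ≤ (Ex e D).card := by
  unfold Ex
  rw [Finset.card_image_of_injOn]
  · unfold aa
    have h1 : ((range e ×ˢ range D).filter fun p => p.1 + p.2 < D) =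
        (range e).biUnion fun a => (range (D - a)).image fun b => (a, b) := by
      ext ⟨a, b⟩
      simp only [mem_filter, mem_product, mem_range, mem_biUnion, mem_image, Prod.mk.injEq]
      constructor
      · rintro ⟨⟨h1, h2⟩, h3⟩
        exact ⟨a, h1, b, by omega, rfl, rfl⟩
      · rintro ⟨a', h1, b', h2, rfl, rfl⟩
        exact ⟨⟨h1, by omega⟩, by omega⟩
    rw [h1, Finset.card_biUnion]
    · apply sum_le_sum
      intro a _
      rw [Finset.card_image_of_injective, card_range]
      intro b b' hb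
      exact (Prod.mk.inj hb).2
    · intro a _ a' _ haa
      show Disjoint _ _
      rw [Finset.disjoint_left]
      intro p hp hp'
      rw [mem_image] at hp hp'
      obtain ⟨b, _, rfl⟩ := hp
      obtain ⟨b', _, h⟩ := hp'
      exact haa (Prod.mk.inj h).1.symm
  · rintro ⟨a, b⟩ h1 ⟨a', b'⟩ h2 h
    simp only [coe_filter, mem_product, mem_range, Set.mem_setOf_eq] at h1 h2 h
    have e1 : (a + e * b) % e = a := by
      rw [Nat.add_mul_mod_self_left]; exact Nat.mod_eq_of_lt h1.1.1
    have e2 : (a' + e * b') % e = a' := by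
      rw [Nat.add_mul_mod_self_left]; exact Nat.mod_eq_of_lt h2.1.1
    have e3 : a = a' := by rw [← e1, ← e2, h]
    subst e3
    have e4 : e * b = e * b' := by omega
    have e5 : b = b' := Nat.eq_of_mul_eq_mul_left (by omega) e4
    rw [e5]

/-- the coefficients of the Taylor expansion at `1` -/
theorem dvd_iff_taylor (N : ℕ) (p : k[X]) :
    (X - C 1) ^ N ∣ p ↔ ∀ l < N, (taylor 1 p).coeff l = 0 := by
  rw [← X_pow_dvd_iff]
  constructor
  · rintro ⟨q, rfl⟩
    refine ⟨taylor 1 q, ?_⟩
    rw [taylor_mul, taylor_pow, map_sub, taylor_X, taylor_C]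
    congr 2
    ring
  · rintro ⟨q, hq⟩
    refine ⟨taylor (-1) q, ?_⟩
    have h1 : p = taylor (-1) (taylor 1 p) := by
      rw [taylor_taylor]
      simp
    rw [h1, hq, taylor_mul, taylor_pow, taylor_X]
    congr 2
    rw [C_neg]
    ring

/-- the first step -/
theorem base [CharZero k] (hSPR : St_SPR) (e D N : ℕ) (he : 1 ≤ e) (hN : N ≤ aa e D) (g : k[X]) :
    ∃ f ∈ V k D, (X - C 1) ^ N ∣ f.eval (X ^ e) - g := by
  obtain ⟨T, hT, hTc⟩ := exists_subset_card_eq (hN.trans (card_Ex e D he))
  obtain ⟨φ, hφ⟩ : ∃ φ : (T → k) →ₗ[k] (Fin N → k), ∀ c l,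
      φ c l = (taylor 1 (∑ t : T, C (c t) * X ^ (t : ℕ))).coeff l := by
    refine ⟨{ toFun := fun c l => (taylor 1 (∑ t : T, C (c t) * X ^ (t : ℕ))).coeff l
              map_add' := ?_
              map_smul' := ?_ }, fun c l => rfl⟩
    · intro c c'
      funext l
      show _ = (taylor 1 (∑ t : T, C (c t) * X ^ (t : ℕ))).coeff l +
        (taylor 1 (∑ t : T, C (c' t) * X ^ (t : ℕ))).coeff l
      rw [← coeff_add, ← map_add, ← sum_add_distrib]
      congr 2
      apply sum_congr rfl
      intro t _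
      rw [Pi.add_apply, C_add, add_mul]
    · intro a c
      funext l
      show _ = a * (taylor 1 (∑ t : T, C (c t) * X ^ (t : ℕ))).coeff l
      rw [← smul_eq_mul, ← coeff_smul, ← map_smul, smul_sum]
      congr 2
      apply sum_congr rfl
      intro t _
      rw [Pi.smul_apply, smul_eq_mul, C_mul, smul_eq_C_mul, mul_assoc]
  have hinj : Function.Injective φ := by
    rw [← LinearMap.ker_eq_bot, LinearMap.ker_eq_bot']
    intro c hc
    have h1 : (X - C 1) ^ N ∣ ∑ t : T, C (c t) * X ^ (t : ℕ) := by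
      rw [dvd_iff_taylor]
      intro l hl
      have h2 := hφ c ⟨l, hl⟩
      rw [hc] at h2
      exact h2.symm
    have hsupp : (∑ t : T, C (c t) * X ^ (t : ℕ)).support ⊆ T := by
      intro s hs
      rw [mem_support_iff, finset_sum_coeff] at hs
      obtain ⟨t, _, ht⟩ := exists_ne_zero_of_sum_ne_zero hs
      rw [coeff_C_mul_X_pow] at ht
      by_cases h3 : s = (t : ℕ)
      · rw [h3]; exact t.2
      · rw [if_neg h3] at ht
        exact absurd rfl ht
    have h2 := hSPR k N _ h1 ((card_le_card hsupp).trans hTc.le)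
    funext s
    have h3 : (∑ t : T, C (c t) * X ^ (t : ℕ)).coeff (s : ℕ) = 0 := by rw [h2, coeff_zero]
    rw [finset_sum_coeff, sum_eq_single s] at h3
    · rw [coeff_C_mul_X_pow, if_pos rfl] at h3
      exact h3
    · intro t _ hts
      rw [coeff_C_mul_X_pow, if_neg]
      intro h4
      exact hts (Subtype.ext h4.symm)
    · intro h4
      exact absurd (mem_univ s) h4
  have hsurj : Function.Surjective φ := by
    rw [← LinearMap.injective_iff_surjective_of_finrank_eq_finrank]
    · exact hinj
    · rw [Module.finrank_fintype_fun_eq_card, Module.finrank_fintype_fun_eq_card,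
        Fintype.card_coe, Fintype.card_fin, hTc]
  obtain ⟨c, hc⟩ := hsurj (fun l => (taylor 1 g).coeff l)
  refine ⟨∑ t : T, C (C (c t) * X ^ ((t : ℕ) % e)) * X ^ ((t : ℕ) / e), ?_, ?_⟩
  · apply Submodule.sum_mem
    intro t _
    apply mono_mem
    have ht := hT t.2
    unfold Ex at ht
    rw [mem_image] at ht
    obtain ⟨⟨a, b⟩, hp, hab⟩ := ht
    simp only [mem_filter, mem_product, mem_range] at hp hab
    have e1 : (t : ℕ) % e = a := by
      rw [← hab, Nat.add_mul_mod_self_left]; exact Nat.mod_eq_of_lt hp.1.1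
    have e2 : (t : ℕ) / e = b := by
      rw [← hab, Nat.add_mul_div_left _ _ (by omega), Nat.div_eq_of_lt hp.1.1, zero_add]
    rw [e1, e2]
    exact hp.2
  · have e1 : (∑ t : T, C (C (c t) * X ^ ((t : ℕ) % e)) * X ^ ((t : ℕ) / e)).eval (X ^ e) =
        ∑ t : T, C (c t) * X ^ (t : ℕ) := by
      rw [eval_finset_sum]
      apply sum_congr rfl
      intro t _
      rw [eval_mul, eval_C, eval_pow, eval_X, mul_assoc, ← pow_mul, ← pow_add, Nat.mod_add_div]
    rw [e1, dvd_iff_taylor]
    intro l hl
    have h1 := congrFun hc ⟨l, hl⟩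
    rw [hφ] at h1
    rw [map_sub, coeff_sub, h1, sub_self]

theorem taylor_mul_lin (c : k[X]) (q : k[X][X]) :
    taylor c ((X - C c) * q) = X * taylor c q := by
  rw [taylor_mul, map_sub, taylor_X, taylor_C]
  congr 1
  ring

/-- all the conditions -/
theorem all [CharZero k] (hSPR : St_SPR) (e r : ℕ) (he : 1 ≤ e) : ∀ (m D : ℕ),
    (∀ i < m, r * (m - i) ≤ aa e (D - i * e)) → ∀ g : ℕ → k[X], ∃ f ∈ V k D, ∀ j < m,
      (X - C 1) ^ (r * (m - j)) ∣ (taylor (X ^ e) f).coeff j - g j := by
  intro m
  induction m with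
  | zero => exact fun D _ g => ⟨0, Submodule.zero_mem _, fun j hj => absurd hj (Nat.not_lt_zero j)⟩
  | succ m ih =>
    intro D h g
    obtain ⟨f0, hf0, hd0⟩ := base hSPR e D (r * (m + 1)) he (by
      have := h 0 (Nat.succ_pos m)
      simpa using this) (g 0)
    obtain ⟨q, hq, hd⟩ := ih (D - e) (fun i hi => by
      have h1 := h (i + 1) (by omega)
      have e1 : D - e - i * e = D - (i + 1) * e := by
        rw [Nat.sub_sub]
        congr 1
        ring
      have e2 : m + 1 - (i + 1) = m - i := by omega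
      rw [e1]
      rwa [e2] at h1) (fun j => g (j + 1) - (taylor (X ^ e) f0).coeff (j + 1))
    refine ⟨f0 + (X - C (X ^ e)) * q, Submodule.add_mem _ hf0 (mul_mem_V e D he q hq), ?_⟩
    intro j hj
    rw [map_add, taylor_mul_lin, coeff_add]
    rcases j with _ | j
    · rw [coeff_X_mul_zero, add_zero, taylor_coeff_zero, Nat.sub_zero]
      exact hd0
    · rw [coeff_X_mul]
      have h1 := hd j (by omega)
      have e2 : m + 1 - (j + 1) = m - j := by omega
      rw [e2]
      have e3 : (taylor (X ^ e) f0).coeff (j + 1) + (taylor (X ^ e) q).coeff j - g (j + 1) =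
          (taylor (X ^ e) q).coeff j - (g (j + 1) - (taylor (X ^ e) f0).coeff (j + 1)) := by ring
      rw [e3]
      exact h1

/-- **IND** -/
theorem ind (hPM : St_PM) (hSPR : St_SPR) : St_IND := by
  intro k _ _ e r m D he h u
  obtain ⟨f, hf, hd⟩ := all hSPR e r he m D h (fun j => if hj : j < m then
    ∑ l : Fin (r * (m - j)), C (u ⟨⟨j, hj⟩, l⟩) * (X - C 1) ^ (l : ℕ) else 0)
  obtain ⟨h1, -, -, h4, -, -⟩ := hPM k D r m 1 (X ^ e)
  refine ⟨fun p => (f.coeff (p.1.2 : ℕ)).coeff (p.1.1 : ℕ), ?_⟩
  funext q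
  rw [h1, ← h4 f hf]
  have h5 := hd q.1 q.1.2
  rw [dvd_iff_taylor] at h5
  have h6 := h5 q.2 q.2.2
  rw [map_sub, coeff_sub, sub_eq_zero] at h6
  rw [h6, dif_pos q.1.2, map_sum, finset_sum_coeff, sum_eq_single q.2]
  · rw [taylor_mul, taylor_C, taylor_pow, map_sub, taylor_X, taylor_C, add_sub_cancel_right,
      coeff_C_mul_X_pow, if_pos rfl]
  · intro l _ hl
    rw [taylor_mul, taylor_C, taylor_pow, map_sub, taylor_X, taylor_C, add_sub_cancel_right,
      coeff_C_mul_X_pow, if_neg]
    intro h7
    exact hl (Fin.ext h7.symm)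
  · intro h7
    exact absurd (mem_univ _) h7

end Pool.Agent.L0h24.FP
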